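import Pool.Agent.Helper96.WT.Stm

set_option autoImplicit false

namespace Pool.Agent.Helper83.WTC

open Polynomial Finset Pool.Agent.Helper96.WT

/-! ## discrete minimisation -/

theorem cc_approx (J : Finset ℕ) (B : ℕ →₀ ℕ) (f : (ℕ →₀ ℕ) → ℕ → ℚ) (τ : ℕ → ℚ) (n : ℚ)
    (hmove : ∀ v ≤ B, ∀ j ∈ J, v j < B j →
      ∑ k ∈ J, |f (v + Finsupp.single j 1) k - f v k - (if k = j then n else 0)| < n)
    (h0 : ∀ v ≤ B, ∀ j ∈ J, v j = 0 → f v j ≤ τ j + n)
    (h1 : ∀ v ≤ B, ∀ j ∈ J, v j = B j → τ j - n ≤ f v j) :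
    ∃ v ≤ B, ∀ j ∈ J, |τ j - f v j| ≤ n := by
  obtain ⟨v, hv, hmin⟩ := Finset.exists_min_image (Finset.Icc 0 B)
    (fun v => ∑ k ∈ J, |τ k - f v k|) ⟨0, by simp⟩
  have hvB : v ≤ B := (Finset.mem_Icc.mp hv).2
  refine ⟨v, hvB, fun j hj => ?_⟩
  by_contra hcon
  rw [not_le] at hcon
  rcases lt_abs.mp hcon with hgt | hgt
  · -- raise
    have hlt : v j < B j := by
      rcases Nat.lt_or_ge (v j) (B j) with h | h
      · exact h
      · have := h1 v hvB j hj (le_antisymm (hvB j) h)
        linarith
    have hm := hmove v hvB j hj hlt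
    have hB' : v + Finsupp.single j 1 ≤ B := by
      intro i
      rcases eq_or_ne i j with rfl | hij
      · simpa using hlt
      · simpa [Finsupp.single_apply, hij.symm] using hvB i
    have hmin' := hmin (v + Finsupp.single j 1) (Finset.mem_Icc.mpr ⟨zero_le, hB'⟩)
    have h2 : ∑ k ∈ J, |τ k - f (v + Finsupp.single j 1) k| ≤
        ∑ k ∈ J, ((|τ k - f v k| - if k = j then n else 0) +
          |f (v + Finsupp.single j 1) k - f v k - (if k = j then n else 0)|) := by
      refine Finset.sum_le_sum fun k _ => ?_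
      have hA : |τ k - f v k| - (if k = j then n else 0) = |τ k - f v k - (if k = j then n else 0)| := by
        by_cases hk : k = j
        · subst hk
          simp only [if_true]
          have hn : 0 < n := lt_of_le_of_lt (Finset.sum_nonneg fun _ _ => abs_nonneg _) hm
          rw [abs_of_pos (by linarith : (0:ℚ) < τ k - f v k), abs_of_pos (by linarith)]
        · simp [hk]
      rw [hA]
      have hB : τ k - f (v + Finsupp.single j 1) k = (τ k - f v k - (if k = j then n else 0)) -
          (f (v + Finsupp.single j 1) k - f v k - (if k = j then n else 0)) := by ring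
      rw [hB]
      exact abs_sub _ _
    rw [Finset.sum_add_distrib, Finset.sum_sub_distrib, Finset.sum_ite_eq' J j, if_pos hj] at h2
    linarith
  · -- lower
    have hpos : 0 < v j := by
      rcases Nat.eq_zero_or_pos (v j) with h | h
      · have := h0 v hvB j hj h
        linarith
      · exact h
    obtain ⟨w, rfl⟩ : ∃ w, v = w + Finsupp.single j 1 := by
      refine ⟨v - Finsupp.single j 1, ?_⟩
      rw [tsub_add_cancel_of_le]
      rw [Finsupp.single_le_iff]
      exact hpos
    have hwB : w ≤ B := le_trans (le_self_add) hvB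
    have hlt : w j < B j := by
      have := hvB j
      simp at this
      omega
    have hm := hmove w hwB j hj hlt
    have hmin' := hmin w (Finset.mem_Icc.mpr ⟨zero_le, hwB⟩)
    have h2 : ∑ k ∈ J, |τ k - f w k| ≤
        ∑ k ∈ J, ((|τ k - f (w + Finsupp.single j 1) k| - if k = j then n else 0) +
          |f (w + Finsupp.single j 1) k - f w k - (if k = j then n else 0)|) := by
      refine Finset.sum_le_sum fun k _ => ?_
      have hA : |τ k - f (w + Finsupp.single j 1) k| - (if k = j then n else 0) =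
          |τ k - f (w + Finsupp.single j 1) k + (if k = j then n else 0)| := by
        by_cases hk : k = j
        · subst hk
          simp only [if_true]
          have hn : 0 < n := lt_of_le_of_lt (Finset.sum_nonneg fun _ _ => abs_nonneg _) hm
          rw [abs_of_neg (by linarith : τ k - f (w + Finsupp.single k 1) k < 0),
            abs_of_neg (by linarith)]
          ring
        · simp [hk]
      rw [hA]
      have hB : τ k - f w k = (τ k - f (w + Finsupp.single j 1) k + (if k = j then n else 0)) +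
          (f (w + Finsupp.single j 1) k - f w k - (if k = j then n else 0)) := by ring
      rw [hB]
      exact abs_add_le _ _
    rw [Finset.sum_add_distrib, Finset.sum_sub_distrib, Finset.sum_ite_eq' J j, if_pos hj] at h2
    linarith

/-! ## polynomials with nonnegative coefficients -/

/-- all coefficients are nonnegative -/
def NN (p : ℤ[X]) : Prop := ∀ k, 0 ≤ p.coeff k

theorem NN.add {p q : ℤ[X]} (hp : NN p) (hq : NN q) : NN (p + q) := fun k => by
  rw [coeff_add]; exact add_nonneg (hp k) (hq k)

theorem NN.mul {p q : ℤ[X]} (hp : NN p) (hq : NN q) : NN (p * q) := fun k => by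
  rw [coeff_mul]; exact Finset.sum_nonneg fun x _ => mul_nonneg (hp _) (hq _)

theorem NN_sum {ι : Type*} {S : Finset ι} {p : ι → ℤ[X]} (hp : ∀ i ∈ S, NN (p i)) :
    NN (∑ i ∈ S, p i) := fun k => by
  rw [finsetSum_coeff]; exact Finset.sum_nonneg fun i hi => hp i hi k

theorem NN_Xpow (k : ℕ) : NN (X ^ k) := fun i => by
  rw [coeff_X_pow]; split_ifs <;> simp

theorem NN_one : NN 1 := fun i => by
  rw [coeff_one]; split_ifs <;> simp

theorem NN_X : NN X := fun i => by
  rw [coeff_X]; split_ifs <;> simp

theorem NN_zero : NN 0 := fun i => by simp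

theorem NN_C {a : ℤ} (ha : 0 ≤ a) : NN (C a) := fun i => by
  rw [coeff_C]; split_ifs <;> simp [ha]

theorem NN.sum_le {p : ℤ[X]} (hp : NN p) (S : Finset ℕ) : ∑ k ∈ S, p.coeff k ≤ p.eval 1 := by
  have h1 : p.eval 1 = ∑ k ∈ S ∪ p.support, p.coeff k := by
    rw [eval_eq_sum, Polynomial.sum_def]
    simp only [one_pow, mul_one]
    refine Finset.sum_subset Finset.subset_union_right fun x _ hx => ?_
    simpa using hx
  rw [h1]
  exact Finset.sum_le_sum_of_subset_of_nonneg Finset.subset_union_left fun i _ _ => hp i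

theorem NN.coeff_le {p : ℤ[X]} (hp : NN p) (k : ℕ) : p.coeff k ≤ p.eval 1 := by
  simpa using hp.sum_le {k}

theorem NN.eval_nonneg {p : ℤ[X]} (hp : NN p) : 0 ≤ p.eval 1 :=
  (hp 0).trans (hp.coeff_le 0)

theorem NN.abs_eval_neg_one {p : ℤ[X]} (hp : NN p) : |p.eval (-1)| ≤ p.eval 1 := by
  rw [eval_eq_sum, eval_eq_sum, Polynomial.sum_def, Polynomial.sum_def]
  refine (Finset.abs_sum_le_sum_abs _ _).trans (Finset.sum_le_sum fun k _ => ?_)
  rw [abs_mul, abs_pow, abs_neg, abs_one, one_pow, abs_of_nonneg (hp k)]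

theorem parity_eval (p : ℤ[X]) : (2 : ℤ) ∣ p.eval 1 - p.eval (-1) := by
  have := Polynomial.sub_dvd_eval_sub (1 : ℤ) (-1) p
  simpa using this

end Pool.Agent.Helper83.WTC
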