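import Pool.Agent.Helper96.WT.Stm

/-! # Part C: the coefficients of the target -/

set_option autoImplicit false

namespace Pool.Agent.Helper83.WTC

open Polynomial Finset Pool.Agent.Helper96.WT

theorem coeff_one_add_C_mul_X_pow (b : ℚ) (N k : ℕ) :
    ((1 + C b * X) ^ N).coeff k = (N.choose k : ℚ) * b ^ k := by
  have h : ((1 + C b * X) ^ N : ℚ[X]) = ((1 + X) ^ N : ℚ[X]).comp (C b * X) := by simp
  rw [h, comp_C_mul_X_coeff, coeff_one_add_X_pow]

theorem eP_coeff_zero (h a : ℕ) : (eP h a).coeff 0 = 1 := by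
  rw [eP, mul_coeff_zero, coeff_one_add_C_mul_X_pow]
  simp

theorem eP_coeff_succ (h a j : ℕ) : (eP h a).coeff (j + 1) =
    ((h - 1).choose (j + 1) : ℚ) * (1 / (a : ℚ)) ^ (j + 1) +
      ((h - 1).choose j : ℚ) * (1 / (a : ℚ)) ^ j * (1 / ((a : ℚ) + 1)) := by
  have : eP h a = (1 + C (1 / (a : ℚ)) * X) ^ (h - 1) +
      (1 + C (1 / (a : ℚ)) * X) ^ (h - 1) * C (1 / ((a : ℚ) + 1)) * X := by
    rw [eP]; ring
  rw [this, coeff_add, coeff_mul_X, coeff_mul_C, coeff_one_add_C_mul_X_pow,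
    coeff_one_add_C_mul_X_pow]

theorem eP_coeff_nonneg (h a j : ℕ) : 0 ≤ (eP h a).coeff j := by
  cases j with
  | zero => rw [eP_coeff_zero]; norm_num
  | succ j => rw [eP_coeff_succ]; positivity

theorem eP_coeff_ge (h a j : ℕ) : ((h - 1).choose j : ℚ) * (1 / (a : ℚ)) ^ j ≤ (eP h a).coeff j := by
  cases j with
  | zero => rw [eP_coeff_zero]; simp
  | succ j =>
    rw [eP_coeff_succ]
    have : (0 : ℚ) ≤ ((h - 1).choose j : ℚ) * (1 / (a : ℚ)) ^ j * (1 / ((a : ℚ) + 1)) := by positivity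
    linarith

theorem eP_coeff_pos (h j : ℕ) (hh : 1 ≤ h) (hj : j ≤ h) : 0 < (eP h (8 * h)).coeff j := by
  have ha : (0 : ℚ) < ((8 * h : ℕ) : ℚ) := by exact_mod_cast (by omega : 0 < 8 * h)
  cases j with
  | zero => rw [eP_coeff_zero]; norm_num
  | succ j =>
    rw [eP_coeff_succ]
    have h1 : 0 < (h - 1).choose j := Nat.choose_pos (by omega)
    have h1' : (0 : ℚ) < ((h - 1).choose j : ℚ) := by exact_mod_cast h1
    have : (0 : ℚ) < ((h - 1).choose j : ℚ) * (1 / ((8 * h : ℕ) : ℚ)) ^ j *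
      (1 / (((8 * h : ℕ) : ℚ) + 1)) := by positivity
    have h2 : (0 : ℚ) ≤ ((h - 1).choose (j + 1) : ℚ) * (1 / ((8 * h : ℕ) : ℚ)) ^ (j + 1) := by
      positivity
    linarith

theorem eP_coeff_step (h j : ℕ) (hh : 1 ≤ h) :
    (eP h (8 * h)).coeff (j + 1) ≤ (eP h (8 * h)).coeff j / 8 := by
  have hh' : (1 : ℚ) ≤ (h : ℚ) := by exact_mod_cast hh
  have hge := eP_coeff_ge h (8 * h) j
  rw [eP_coeff_succ]
  set b : ℚ := 1 / ((8 * h : ℕ) : ℚ) with hb
  set b' : ℚ := 1 / (((8 * h : ℕ) : ℚ) + 1) with hb'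
  have hb0 : 0 < b := by rw [hb]; push_cast; positivity
  have hbb' : b' ≤ b := by
    rw [hb, hb']
    apply one_div_le_one_div_of_le
    · push_cast; positivity
    · linarith
  have hbh : (h : ℚ) * b = 1 / 8 := by
    rw [hb]; push_cast; field_simp
  have hch : ((h - 1).choose (j + 1) : ℚ) ≤ ((h : ℚ) - 1) * ((h - 1).choose j : ℚ) := by
    have h3 : (h - 1).choose (j + 1) ≤ (h - 1) * (h - 1).choose j := by
      have := Nat.choose_succ_right_eq (h - 1) j
      calc (h - 1).choose (j + 1) ≤ (h - 1).choose (j + 1) * (j + 1) :=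
            Nat.le_mul_of_pos_right _ (by omega)
        _ = (h - 1).choose j * (h - 1 - j) := this
        _ ≤ (h - 1).choose j * (h - 1) := Nat.mul_le_mul_left _ (by omega)
        _ = _ := Nat.mul_comm _ _
    have h4 : (((h - 1).choose (j + 1) : ℕ) : ℚ) ≤ (((h - 1) * (h - 1).choose j : ℕ) : ℚ) := by
      exact_mod_cast h3
    rw [Nat.cast_mul, Nat.cast_sub hh] at h4
    simpa using h4
  set p : ℚ := ((h - 1).choose j : ℚ) * b ^ j with hp
  have hp0 : 0 ≤ p := by positivity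
  have h5 : ((h - 1).choose (j + 1) : ℚ) * b ^ (j + 1) ≤ ((h : ℚ) - 1) * b * p := by
    calc ((h - 1).choose (j + 1) : ℚ) * b ^ (j + 1)
        ≤ (((h : ℚ) - 1) * ((h - 1).choose j : ℚ)) * b ^ (j + 1) :=
          mul_le_mul_of_nonneg_right hch (by positivity)
      _ = ((h : ℚ) - 1) * b * p := by rw [hp]; ring
  have h6 : p * b' ≤ b * p := by rw [mul_comm]; exact mul_le_mul_of_nonneg_right hbb' hp0
  have h7 : ((h : ℚ) - 1) * b * p + b * p = p / 8 := by
    have : ((h : ℚ) - 1) * b * p + b * p = ((h : ℚ) * b) * p := by ring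
    rw [this, hbh]; ring
  linarith

theorem eP_coeff_add (h j i : ℕ) (hh : 1 ≤ h) :
    (eP h (8 * h)).coeff (j + i) ≤ (eP h (8 * h)).coeff j * (1 / 8) ^ i := by
  induction i with
  | zero => simp
  | succ i ih =>
    have := eP_coeff_step h (j + i) hh
    rw [← add_assoc, pow_succ]
    linarith

theorem eP_coeff_le (h i : ℕ) (hh : 1 ≤ h) : (eP h (8 * h)).coeff i ≤ (1 / 8) ^ i := by
  have := eP_coeff_add h 0 i hh
  rwa [zero_add, eP_coeff_zero, one_mul] at this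

theorem eP_coeff_le_one (h i : ℕ) (hh : 1 ≤ h) : (eP h (8 * h)).coeff i ≤ 1 :=
  (eP_coeff_le h i hh).trans (pow_le_one₀ (by norm_num) (by norm_num))

theorem eP_coeff_anti (h i j : ℕ) (hh : 1 ≤ h) (hij : i ≤ j) :
    (eP h (8 * h)).coeff j ≤ (eP h (8 * h)).coeff i := by
  obtain ⟨k, rfl⟩ := Nat.exists_eq_add_of_le hij
  refine (eP_coeff_add h i k hh).trans ?_
  have h1 : ((1 : ℚ) / 8) ^ k ≤ 1 := pow_le_one₀ (by norm_num) (by norm_num)
  have h2 := eP_coeff_nonneg h (8 * h) i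
  nlinarith

theorem eP_eval_one (h : ℕ) (hh : 1 ≤ h) : 1 ≤ (eP h (8 * h)).eval 1 ∧
    (eP h (8 * h)).eval 1 ≤ 8 / 7 := by
  have hh' : (1 : ℚ) ≤ (h : ℚ) := by exact_mod_cast hh
  have he : (eP h (8 * h)).eval 1 = (1 + 1 / ((8 * h : ℕ) : ℚ)) ^ (h - 1) *
      (1 + 1 / (((8 * h : ℕ) : ℚ) + 1)) := by
    rw [eP]; simp
  rw [he]
  set b : ℚ := 1 / ((8 * h : ℕ) : ℚ) with hb
  set b' : ℚ := 1 / (((8 * h : ℕ) : ℚ) + 1) with hb'
  have hb0 : 0 < b := by rw [hb]; push_cast; positivity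
  have hb'0 : 0 < b' := by rw [hb']; push_cast; positivity
  have hbb' : b' ≤ b := by
    rw [hb, hb']
    apply one_div_le_one_div_of_le
    · push_cast; positivity
    · linarith
  have hbh : (h : ℚ) * b = 1 / 8 := by
    rw [hb]; push_cast; field_simp
  have hb1 : b ≤ 1 := by nlinarith
  constructor
  · have h1 : 1 ≤ (1 + b) ^ (h - 1) := one_le_pow₀ (by linarith)
    nlinarith
  · have h1 : (1 + b) ^ (h - 1) * (1 + b') ≤ (1 + b) ^ h := by
      obtain ⟨k, rfl⟩ : ∃ k, h = k + 1 := ⟨h - 1, by omega⟩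
      rw [Nat.add_sub_cancel, pow_succ]
      exact mul_le_mul_of_nonneg_left (by linarith) (by positivity)
    have h2 : (1 + b) ^ h * (1 - b) ^ h ≤ 1 := by
      rw [← mul_pow]
      apply pow_le_one₀
      · nlinarith
      · nlinarith
    have h3 : 7 / 8 ≤ (1 - b) ^ h := by
      have := one_add_mul_le_pow (a := -b) (by linarith) h
      have h4 : (1 : ℚ) + (h : ℚ) * (-b) = 7 / 8 := by
        rw [mul_neg, hbh]; norm_num
      rw [h4] at this
      simpa [sub_eq_add_neg] using this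
    have h5 : 0 ≤ (1 + b) ^ h := by positivity
    have h6 : (1 + b) ^ h * (7 / 8) ≤ 1 := (mul_le_mul_of_nonneg_left h3 h5).trans h2
    linarith

theorem tgt_coeff (h a n k : ℕ) : (tgt h a n).coeff (k + 2) =
    ((n : ℚ) - 1) * ((eP h a).coeff (k + 1) +
      ((n : ℚ) / (2 * (eP h a).eval 1) - 1) * (eP h a).coeff k) := by
  have : tgt h a n = C ((n : ℚ) - 1) * (eP h a * X +
      C ((n : ℚ) / (2 * (eP h a).eval 1) - 1) * (eP h a * X ^ 2)) := by
    rw [tgt]; ring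
  rw [this, coeff_C_mul, coeff_add, coeff_mul_X, coeff_C_mul, coeff_mul_X_pow]

/-- upper and lower bounds of the target -/
theorem tgt_bounds (h n j : ℕ) (hh : 1 ≤ h) (hn : 16 ≤ n) :
    3 / 16 * (n : ℚ) ^ 2 * (eP h (8 * h)).coeff j ≤ (tgt h (8 * h) n).coeff (j + 2) ∧
    (tgt h (8 * h) n).coeff (j + 2) ≤ 1 / 2 * (n : ℚ) ^ 2 * (eP h (8 * h)).coeff j := by
  obtain ⟨hP1, hP2⟩ := eP_eval_one h hh
  have he0 := eP_coeff_nonneg h (8 * h) j
  have he1 := eP_coeff_nonneg h (8 * h) (j + 1)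
  have he2 : (eP h (8 * h)).coeff (j + 1) ≤ (eP h (8 * h)).coeff j :=
    eP_coeff_anti h j (j + 1) hh (by omega)
  have hn' : (16 : ℚ) ≤ n := by exact_mod_cast hn
  rw [tgt_coeff]
  set P := (eP h (8 * h)).eval 1
  set e := (eP h (8 * h)).coeff j
  set e' := (eP h (8 * h)).coeff (j + 1)
  have hu1 : 7 / 16 * (n : ℚ) ≤ (n : ℚ) / (2 * P) := by
    rw [le_div_iff₀ (by linarith)]
    nlinarith
  have hu2 : (n : ℚ) / (2 * P) ≤ 1 / 2 * n := by
    rw [div_le_iff₀ (by linarith)]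
    nlinarith
  set u := (n : ℚ) / (2 * P)
  constructor
  · have h1 : 3 / 8 * (n : ℚ) ≤ u - 1 := by linarith
    have h2 : (3 / 8 * (n : ℚ)) * e ≤ e' + (u - 1) * e := by
      have := mul_le_mul_of_nonneg_right h1 he0
      linarith
    have h3 : (1 / 2 * (n : ℚ)) ≤ (n : ℚ) - 1 := by linarith
    calc 3 / 16 * (n : ℚ) ^ 2 * e = (1 / 2 * (n : ℚ)) * ((3 / 8 * (n : ℚ)) * e) := by ring
      _ ≤ ((n : ℚ) - 1) * (e' + (u - 1) * e) := mul_le_mul h3 h2 (by positivity) (by linarith)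
  · have h1 : e' + (u - 1) * e ≤ 1 / 2 * n * e := by
      have := mul_le_mul_of_nonneg_right hu2 he0
      linarith
    calc ((n : ℚ) - 1) * (e' + (u - 1) * e) ≤ ((n : ℚ) - 1) * (1 / 2 * n * e) :=
          mul_le_mul_of_nonneg_left h1 (by linarith)
      _ ≤ (n : ℚ) * (1 / 2 * n * e) :=
          mul_le_mul_of_nonneg_right (by linarith) (by positivity)
      _ = 1 / 2 * (n : ℚ) ^ 2 * e := by ring

end Pool.Agent.Helper83.WTC
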