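import Pool.Agent.Helper83.WTC.C1

/-! # Part C: caterpillars -/

set_option autoImplicit false

namespace Pool.Agent.Helper83.WTC

open Polynomial Finset Pool.Agent.Helper96.WT

/-- the level polynomial seen from the spine vertex `j` -/
noncomputable def Yp (h c : ℕ) (Γ : ℤ[X]) (m : ℕ → ℕ) (j : ℕ) : ℤ[X] :=
  ∑ i ∈ range (h + 1), X ^ (Nat.dist i j) * ell c Γ m i

/-- the same without the leaves of the spine vertex `0` -/
noncomputable def Zp (h c : ℕ) (Γ : ℤ[X]) (m : ℕ → ℕ) (j : ℕ) : ℤ[X] :=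
  ∑ i ∈ range (h + 1), X ^ (Nat.dist i j) * (ell c Γ m i - if i = 0 then C (m 0 : ℤ) * X else 0)

/-- the quadratic form -/
noncomputable def Qp (h c : ℕ) (Γ : ℤ[X]) (m : ℕ → ℕ) : ℤ[X] :=
  ∑ i ∈ range (h + 1), ∑ j ∈ range (h + 1), X ^ (Nat.dist i j) * (ell c Γ m i * ell c Γ m j)

theorem ell_NN (c : ℕ) (Γ : ℤ[X]) (hΓ : NN Γ) (m : ℕ → ℕ) (i : ℕ) : NN (ell c Γ m i) := by
  unfold ell
  refine NN.add (NN.add NN_one (NN.mul (NN_C (by positivity)) NN_X)) ?_
  split_ifs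
  · exact hΓ
  · exact NN_zero

theorem ell_eval_one (c : ℕ) (Γ : ℤ[X]) (m : ℕ → ℕ) (i : ℕ) :
    (ell c Γ m i).eval 1 = 1 + (m i : ℤ) + if i = c then Γ.eval 1 else 0 := by
  unfold ell
  split_ifs <;> simp

theorem sum_ell_eval (h c : ℕ) (hc : c ≤ h) (Γ : ℤ[X]) (m : ℕ → ℕ) :
    ∑ i ∈ range (h + 1), (ell c Γ m i).eval 1 =
      (∑ i ∈ range (h + 1), (1 + (m i : ℤ))) + Γ.eval 1 := by
  simp only [ell_eval_one]
  rw [Finset.sum_add_distrib, Finset.sum_ite_eq' (range (h + 1)) c, if_pos (by simp; omega)]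

theorem Y_split (h c : ℕ) (Γ : ℤ[X]) (m : ℕ → ℕ) (j : ℕ) :
    Yp h c Γ m j = Zp h c Γ m j + C (m 0 : ℤ) * X ^ (j + 1) := by
  unfold Yp Zp
  have : ∀ i ∈ range (h + 1), X ^ (Nat.dist i j) *
      (ell c Γ m i - if i = 0 then C (m 0 : ℤ) * X else 0) =
      X ^ (Nat.dist i j) * ell c Γ m i - if i = 0 then C (m 0 : ℤ) * X ^ (j + 1) else 0 := by
    intro i _
    by_cases hi : i = 0
    · subst hi
      rw [if_pos rfl, if_pos rfl, Nat.dist_zero_left]
      ring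
    · rw [if_neg hi, if_neg hi]; ring
  rw [Finset.sum_congr rfl this, Finset.sum_sub_distrib, Finset.sum_ite_eq' (range (h + 1)) 0,
    if_pos (by simp)]
  ring

theorem Z_NN (h c : ℕ) (Γ : ℤ[X]) (hΓ : NN Γ) (m : ℕ → ℕ) (j : ℕ) : NN (Zp h c Γ m j) := by
  unfold Zp
  refine NN_sum fun i _ => NN.mul (NN_Xpow _) ?_
  by_cases hi : i = 0
  · subst hi
    rw [if_pos rfl]
    have : ell c Γ m 0 - C (m 0 : ℤ) * X = 1 + if 0 = c then Γ else 0 := by
      unfold ell; ring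
    rw [this]
    refine NN.add NN_one ?_
    split_ifs
    · exact hΓ
    · exact NN_zero
  · rw [if_neg hi, sub_zero]
    exact ell_NN c Γ hΓ m i

theorem Z_eval (h c : ℕ) (hc : c ≤ h) (Γ : ℤ[X]) (m : ℕ → ℕ) (j : ℕ) :
    (Zp h c Γ m j).eval 1 = (∑ i ∈ range (h + 1), (1 + (m i : ℤ))) + Γ.eval 1 - m 0 := by
  rw [← sum_ell_eval h c hc]
  unfold Zp
  rw [eval_finsetSum]
  have : ∀ i ∈ range (h + 1), eval 1 (X ^ (Nat.dist i j) *
      (ell c Γ m i - if i = 0 then C (m 0 : ℤ) * X else 0)) =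
      (ell c Γ m i).eval 1 - if i = 0 then (m 0 : ℤ) else 0 := by
    intro i _
    split_ifs <;> simp
  rw [Finset.sum_congr rfl this, Finset.sum_sub_distrib, Finset.sum_ite_eq' (range (h + 1)) 0,
    if_pos (by simp)]

/-- the effect of moving a leaf from `i0` to `j` on the quadratic form -/
theorem Q_move (h c : ℕ) (Γ : ℤ[X]) (m m' : ℕ → ℕ) (j i0 : ℕ) (hj : j ≤ h) (hi0 : i0 ≤ h)
    (hm : ∀ i, (m' i : ℤ) = m i + ((if i = j then 1 else 0) - (if i = i0 then 1 else 0))) :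
    Qp h c Γ m' - Qp h c Γ m = 2 * X * (Yp h c Γ m j - Yp h c Γ m i0) + 2 * X ^ 2 -
      2 * X ^ (Nat.dist j i0 + 2) := by
  set D : ℕ → ℤ[X] := fun i => (if i = j then 1 else 0) - (if i = i0 then 1 else 0) with hD
  have hell : ∀ i, ell c Γ m' i = ell c Γ m i + D i * X := by
    intro i
    have : (C (m' i : ℤ) : ℤ[X]) = C (m i : ℤ) + D i := by
      rw [hm i, C_add]
      congr 1
      simp only [hD]
      split_ifs <;> simp
    unfold ell
    rw [this]; ring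
  have hsum : ∀ F : ℕ → ℤ[X], ∑ i ∈ range (h + 1), D i * F i = F j - F i0 := by
    intro F
    simp only [hD, sub_mul, ite_mul, one_mul, zero_mul]
    rw [Finset.sum_sub_distrib, Finset.sum_ite_eq' (range (h + 1)) j,
      Finset.sum_ite_eq' (range (h + 1)) i0, if_pos (by simp; omega), if_pos (by simp; omega)]
  have e1 : Qp h c Γ m' = Qp h c Γ m +
      ∑ i' ∈ range (h + 1), D i' * (∑ i ∈ range (h + 1), X ^ (Nat.dist i i') * ell c Γ m i * X) +
      ∑ i ∈ range (h + 1), D i * (∑ i' ∈ range (h + 1), X ^ (Nat.dist i i') * ell c Γ m i' * X) +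
      ∑ i ∈ range (h + 1), D i * (∑ i' ∈ range (h + 1), D i' * (X ^ (Nat.dist i i') * X ^ 2)) := by
    have e2 : ∑ i' ∈ range (h + 1), D i' *
        (∑ i ∈ range (h + 1), X ^ (Nat.dist i i') * ell c Γ m i * X) =
        ∑ i ∈ range (h + 1), ∑ i' ∈ range (h + 1), D i' *
          (X ^ (Nat.dist i i') * ell c Γ m i * X) := by
      rw [Finset.sum_comm]
      exact Finset.sum_congr rfl fun _ _ => by rw [Finset.mul_sum]
    rw [e2]
    unfold Qp
    simp only [Finset.mul_sum]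
    rw [← Finset.sum_add_distrib, ← Finset.sum_add_distrib, ← Finset.sum_add_distrib]
    refine Finset.sum_congr rfl fun i _ => ?_
    rw [← Finset.sum_add_distrib, ← Finset.sum_add_distrib, ← Finset.sum_add_distrib]
    refine Finset.sum_congr rfl fun i' _ => ?_
    rw [hell i, hell i']
    ring
  rw [e1]
  simp only [hsum]
  have e3 : ∀ t, ∑ i ∈ range (h + 1), X ^ (Nat.dist i t) * ell c Γ m i * X = Yp h c Γ m t * X := by
    intro t
    unfold Yp
    rw [Finset.sum_mul]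
  have e4 : ∀ t, ∑ i ∈ range (h + 1), X ^ (Nat.dist t i) * ell c Γ m i * X = Yp h c Γ m t * X := by
    intro t
    rw [← e3 t]
    exact Finset.sum_congr rfl fun i _ => by rw [Nat.dist_comm]
  rw [e3, e3, e4, e4, Nat.dist_self, Nat.dist_self, Nat.dist_comm i0 j]
  ring

theorem twoW_eq (h c : ℕ) (Γ E0 : ℤ[X]) (m : ℕ → ℕ) (k : ℕ) (hk : 3 ≤ k) :
    (twoW h c Γ E0 m).coeff k = (Qp h c Γ m).coeff k + E0.coeff k := by
  have : twoW h c Γ E0 m = Qp h c Γ m - C ((h : ℤ) + 1) -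
      C (∑ i ∈ range (h + 1), (m i : ℤ)) * X ^ 2 + E0 := by
    unfold twoW Qp; ring
  rw [this, coeff_add, coeff_sub, coeff_sub, coeff_C_mul, coeff_X_pow, coeff_C,
    if_neg (by omega), if_neg (by omega)]
  ring

theorem twoW_move (h c : ℕ) (Γ E0 : ℤ[X]) (m m' : ℕ → ℕ) (j i0 : ℕ) (hj : j ≤ h) (hi0 : i0 ≤ h)
    (hm : ∀ i, (m' i : ℤ) = m i + ((if i = j then 1 else 0) - (if i = i0 then 1 else 0)))
    (k : ℕ) (hk : 2 ≤ k) :
    (twoW h c Γ E0 m').coeff (k + 2) - (twoW h c Γ E0 m).coeff (k + 2) =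
      2 * ((Yp h c Γ m j).coeff (k + 1) - (Yp h c Γ m i0).coeff (k + 1) -
        if k = Nat.dist j i0 then 1 else 0) := by
  rw [twoW_eq _ _ _ _ _ _ (by omega), twoW_eq _ _ _ _ _ _ (by omega)]
  have h1 := congrArg (fun p : ℤ[X] => p.coeff (k + 2)) (Q_move h c Γ m m' j i0 hj hi0 hm)
  have h2 : (2 * X * (Yp h c Γ m j - Yp h c Γ m i0) + 2 * X ^ 2 -
      2 * X ^ (Nat.dist j i0 + 2) : ℤ[X]) = C 2 * ((Yp h c Γ m j - Yp h c Γ m i0) * X) +
      C 2 * X ^ 2 - C 2 * X ^ (Nat.dist j i0 + 2) := by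
    simp only [map_ofNat]; ring
  simp only [h2] at h1
  rw [coeff_sub, coeff_sub, coeff_add, coeff_C_mul, coeff_C_mul, coeff_C_mul, coeff_X_pow,
    coeff_X_pow, show k + 2 = (k + 1) + 1 from rfl, coeff_mul_X, coeff_sub,
    if_neg (by omega : ¬ (k + 1 + 1 = 2))] at h1
  rw [show k + 2 = (k + 1) + 1 from rfl]
  have h3 : (k + 1 + 1 = Nat.dist j i0 + 2) ↔ (k = Nat.dist j i0) := by omega
  simp only [h3] at h1
  split_ifs at h1 ⊢ <;> linarith

/-- the error of a move -/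
theorem move_bound (h c : ℕ) (hc : c ≤ h) (Γ : ℤ[X]) (hΓ : NN Γ) (m : ℕ → ℕ) (n : ℤ)
    (hn : (∑ i ∈ range (h + 1), (1 + (m i : ℤ))) + Γ.eval 1 = n) (hm0 : (m 0 : ℤ) ≤ n)
    (j i0 : ℕ) (hi0 : i0 ≤ 1) (J : Finset ℕ) (hJ : ∀ k ∈ J, 2 ≤ k) :
    ∑ k ∈ J, |(Yp h c Γ m j).coeff (k + 1) - (Yp h c Γ m i0).coeff (k + 1) -
      (if k = Nat.dist j i0 then 1 else 0) - (if k = j then n else 0)| ≤ 3 * (n - m 0) + 1 := by
  have hZ : ∀ t, ∑ k ∈ J, (Zp h c Γ m t).coeff (k + 1) ≤ n - m 0 := by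
    intro t
    have h1 := (Z_NN h c Γ hΓ m t).sum_le (J.map ⟨fun k => k + 1, fun a b hab => by
      simpa using hab⟩)
    rw [Z_eval h c hc, hn, Finset.sum_map] at h1
    exact h1
  have hterm : ∀ k ∈ J, |(Yp h c Γ m j).coeff (k + 1) - (Yp h c Γ m i0).coeff (k + 1) -
      (if k = Nat.dist j i0 then 1 else 0) - (if k = j then n else 0)| ≤
      (Zp h c Γ m j).coeff (k + 1) + (Zp h c Γ m i0).coeff (k + 1) +
        (if k = Nat.dist j i0 then 1 else 0) + (if k = j then n - m 0 else 0) := by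
    intro k hk
    have hk2 := hJ k hk
    have z1 := Z_NN h c Γ hΓ m j (k + 1)
    have z2 := Z_NN h c Γ hΓ m i0 (k + 1)
    rw [Y_split, Y_split, coeff_add, coeff_add, coeff_C_mul, coeff_C_mul, coeff_X_pow, coeff_X_pow,
      if_neg (by omega : ¬ (k + 1 = i0 + 1))]
    have h3 : (k + 1 = j + 1) ↔ (k = j) := by omega
    simp only [h3]
    rw [abs_le]
    constructor <;> split_ifs <;> linarith
  refine (Finset.sum_le_sum hterm).trans ?_
  rw [Finset.sum_add_distrib, Finset.sum_add_distrib, Finset.sum_add_distrib]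
  have h1 := hZ j
  have h2 := hZ i0
  have h3 : ∑ k ∈ J, (if k = Nat.dist j i0 then (1 : ℤ) else 0) ≤ 1 := by
    rw [Finset.sum_ite_eq' J]
    split_ifs <;> norm_num
  have h4 : ∑ k ∈ J, (if k = j then n - (m 0 : ℤ) else 0) ≤ n - m 0 := by
    rw [Finset.sum_ite_eq' J]
    split_ifs <;> linarith
  linarith

/-- the part of the quadratic form coming from pairs of leaves -/
noncomputable def Q0 (h : ℕ) (m : ℕ → ℕ) : ℤ[X] :=
  ∑ i ∈ range (h + 1), ∑ j ∈ range (h + 1), X ^ (Nat.dist i j) *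
    ((C (m i : ℤ) * X) * (C (m j : ℤ) * X))

theorem Q0_coeff (h : ℕ) (m : ℕ → ℕ) (j : ℕ) : (Q0 h m).coeff (j + 2) =
    ∑ i ∈ range (h + 1), ∑ i' ∈ range (h + 1),
      if j = Nat.dist i i' then (m i : ℤ) * (m i' : ℤ) else 0 := by
  unfold Q0
  rw [finsetSum_coeff]
  refine Finset.sum_congr rfl fun i _ => ?_
  rw [finsetSum_coeff]
  refine Finset.sum_congr rfl fun i' _ => ?_
  have : (X ^ (Nat.dist i i') * ((C (m i : ℤ) * X) * (C (m i' : ℤ) * X)) : ℤ[X]) =
      C ((m i : ℤ) * (m i' : ℤ)) * X ^ (Nat.dist i i' + 2) := by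
    rw [C_mul]; ring
  rw [this, coeff_C_mul, coeff_X_pow]
  have h3 : (j + 2 = Nat.dist i i' + 2) ↔ (j = Nat.dist i i') := by omega
  simp only [h3]
  split_ifs <;> simp

theorem Q_sub_NN (h c : ℕ) (Γ : ℤ[X]) (hΓ : NN Γ) (m : ℕ → ℕ) : NN (Qp h c Γ m - Q0 h m) := by
  have hd : ∀ i, NN (ell c Γ m i - C (m i : ℤ) * X) := by
    intro i
    have : ell c Γ m i - C (m i : ℤ) * X = 1 + if i = c then Γ else 0 := by
      unfold ell; ring
    rw [this]
    refine NN.add NN_one ?_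
    split_ifs
    · exact hΓ
    · exact NN_zero
  unfold Qp Q0
  rw [← Finset.sum_sub_distrib]
  refine NN_sum fun i _ => ?_
  rw [← Finset.sum_sub_distrib]
  refine NN_sum fun i' _ => ?_
  have : (X ^ (Nat.dist i i') * (ell c Γ m i * ell c Γ m i') -
      X ^ (Nat.dist i i') * ((C (m i : ℤ) * X) * (C (m i' : ℤ) * X)) : ℤ[X]) =
      X ^ (Nat.dist i i') * ((ell c Γ m i - C (m i : ℤ) * X) * ell c Γ m i' +
        (C (m i : ℤ) * X) * (ell c Γ m i' - C (m i' : ℤ) * X)) := by ring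
  rw [this]
  refine NN.mul (NN_Xpow _) (NN.add (NN.mul (hd i) (ell_NN c Γ hΓ m i')) (NN.mul ?_ (hd i')))
  exact NN.mul (NN_C (by positivity)) NN_X

theorem Q_eval (h c : ℕ) (hc : c ≤ h) (Γ : ℤ[X]) (m : ℕ → ℕ) : (Qp h c Γ m).eval 1 =
    ((∑ i ∈ range (h + 1), (1 + (m i : ℤ))) + Γ.eval 1) ^ 2 := by
  rw [← sum_ell_eval h c hc, sq, Finset.sum_mul_sum]
  unfold Qp
  rw [eval_finsetSum]
  refine Finset.sum_congr rfl fun i _ => ?_
  rw [eval_finsetSum]
  refine Finset.sum_congr rfl fun i' _ => ?_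
  simp

theorem Q0_eval (h : ℕ) (m : ℕ → ℕ) : (Q0 h m).eval 1 = (∑ i ∈ range (h + 1), (m i : ℤ)) ^ 2 := by
  rw [sq, Finset.sum_mul_sum]
  unfold Q0
  rw [eval_finsetSum]
  refine Finset.sum_congr rfl fun i _ => ?_
  rw [eval_finsetSum]
  refine Finset.sum_congr rfl fun i' _ => ?_
  simp

/-- upper bound of a coefficient -/
theorem Q_coeff_le (h c : ℕ) (hc : c ≤ h) (Γ : ℤ[X]) (hΓ : NN Γ) (m : ℕ → ℕ) (n : ℤ)
    (hn : (∑ i ∈ range (h + 1), (1 + (m i : ℤ))) + Γ.eval 1 = n) (k : ℕ) :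
    (Qp h c Γ m).coeff k ≤ (Q0 h m).coeff k + 2 * n * ((h : ℤ) + 1 + Γ.eval 1) := by
  have h1 := (Q_sub_NN h c Γ hΓ m).coeff_le k
  rw [coeff_sub, eval_sub, Q_eval h c hc, Q0_eval, hn] at h1
  have h2 : (∑ i ∈ range (h + 1), (m i : ℤ)) = n - ((h : ℤ) + 1 + Γ.eval 1) := by
    rw [Finset.sum_add_distrib] at hn
    simp at hn
    linarith
  rw [h2] at h1
  nlinarith [sq_nonneg ((h : ℤ) + 1 + Γ.eval 1)]

/-- lower bound of a coefficient -/
theorem Q_coeff_ge (h c : ℕ) (Γ : ℤ[X]) (hΓ : NN Γ) (m : ℕ → ℕ) (j : ℕ) (hj : 1 ≤ j) (hjh : j ≤ h) :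
    2 * (m 0 : ℤ) * (m j : ℤ) ≤ (Qp h c Γ m).coeff (j + 2) := by
  have h1 := Q_sub_NN h c Γ hΓ m (j + 2)
  rw [coeff_sub] at h1
  have h2 : 2 * (m 0 : ℤ) * (m j : ℤ) ≤ (Q0 h m).coeff (j + 2) := by
    rw [Q0_coeff]
    have h3 : ∀ i ∈ range (h + 1), 0 ≤ ∑ i' ∈ range (h + 1),
        (if j = Nat.dist i i' then (m i : ℤ) * (m i' : ℤ) else 0) := by
      intro i _
      refine Finset.sum_nonneg fun i' _ => ?_
      split_ifs
      · positivity
      · exact le_refl 0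
    have h4 : ∑ i ∈ ({0, j} : Finset ℕ), ∑ i' ∈ range (h + 1),
        (if j = Nat.dist i i' then (m i : ℤ) * (m i' : ℤ) else 0) ≤
        ∑ i ∈ range (h + 1), ∑ i' ∈ range (h + 1),
        (if j = Nat.dist i i' then (m i : ℤ) * (m i' : ℤ) else 0) := by
      refine Finset.sum_le_sum_of_subset_of_nonneg ?_ fun i hi _ => h3 i hi
      intro x hx
      simp only [Finset.mem_insert, Finset.mem_singleton] at hx
      simp only [Finset.mem_range]
      omega
    refine le_trans ?_ h4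
    rw [Finset.sum_pair (by omega)]
    have h5 : ∀ i i', i' ∈ range (h + 1) → j = Nat.dist i i' → (m i : ℤ) * (m i' : ℤ) ≤
        ∑ i' ∈ range (h + 1), (if j = Nat.dist i i' then (m i : ℤ) * (m i' : ℤ) else 0) := by
      intro i i' hi' hji
      have := Finset.single_le_sum (f := fun i' =>
        (if j = Nat.dist i i' then (m i : ℤ) * (m i' : ℤ) else 0)) (s := range (h + 1))
        (fun i'' _ => by
          split_ifs
          · positivity
          · exact le_refl 0) hi'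
      simp only [if_pos hji] at this
      exact this
    have h6 := h5 0 j (by simp; omega) (by rw [Nat.dist_zero_left])
    have h7 := h5 j 0 (by simp) (by rw [Nat.dist_zero_right])
    linarith
  linarith

/-- the pairs of leaves at distance `j + 2`, upper bound -/
theorem Q0_coeff_le (h : ℕ) (m : ℕ → ℕ) (j : ℕ) : (Q0 h m).coeff (j + 2) ≤
    2 * ∑ i ∈ range (h + 1), if i + j ≤ h then (m i : ℤ) * (m (i + j) : ℤ) else 0 := by
  rw [Q0_coeff]
  have h1 : ∀ i ∈ range (h + 1), ∀ i' ∈ range (h + 1),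
      (if j = Nat.dist i i' then (m i : ℤ) * (m i' : ℤ) else 0) ≤
      (if i' = i + j then (m i : ℤ) * (m i' : ℤ) else 0) +
        (if i = i' + j then (m i : ℤ) * (m i' : ℤ) else 0) := by
    intro i _ i' _
    have hp : (0 : ℤ) ≤ (m i : ℤ) * (m i' : ℤ) := by positivity
    by_cases hj : j = Nat.dist i i'
    · rw [if_pos hj]
      rcases le_total i i' with hle | hle
      · rw [if_pos (show i' = i + j by rw [hj, Nat.dist_eq_sub_of_le hle]; omega)]
        split_ifs <;> linarith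
      · rw [if_pos (show i = i' + j by rw [hj, Nat.dist_eq_sub_of_le_right hle]; omega)]
        split_ifs <;> linarith
    · rw [if_neg hj]
      split_ifs <;> linarith
  refine (Finset.sum_le_sum fun i hi => Finset.sum_le_sum (h1 i hi)).trans ?_
  have h2 : ∑ i ∈ range (h + 1), ∑ i' ∈ range (h + 1),
      ((if i' = i + j then (m i : ℤ) * (m i' : ℤ) else 0) +
        (if i = i' + j then (m i : ℤ) * (m i' : ℤ) else 0)) =
      ∑ i ∈ range (h + 1), ∑ i' ∈ range (h + 1),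
        (if i' = i + j then (m i : ℤ) * (m i' : ℤ) else 0) +
      ∑ i' ∈ range (h + 1), ∑ i ∈ range (h + 1),
        (if i = i' + j then (m i : ℤ) * (m i' : ℤ) else 0) := by
    rw [Finset.sum_comm (s := range (h + 1)) (t := range (h + 1))
      (f := fun i' i => (if i = i' + j then (m i : ℤ) * (m i' : ℤ) else 0)),
      ← Finset.sum_add_distrib]
    exact Finset.sum_congr rfl fun _ _ => Finset.sum_add_distrib
  rw [h2]
  have h3 : ∑ i ∈ range (h + 1), ∑ i' ∈ range (h + 1),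
        (if i' = i + j then (m i : ℤ) * (m i' : ℤ) else 0) =
      ∑ i ∈ range (h + 1), if i + j ≤ h then (m i : ℤ) * (m (i + j) : ℤ) else 0 := by
    refine Finset.sum_congr rfl fun i _ => ?_
    rw [Finset.sum_ite_eq' (range (h + 1)) (i + j)]
    simp
  have h4 : ∑ i' ∈ range (h + 1), ∑ i ∈ range (h + 1),
        (if i = i' + j then (m i : ℤ) * (m i' : ℤ) else 0) =
      ∑ i ∈ range (h + 1), if i + j ≤ h then (m i : ℤ) * (m (i + j) : ℤ) else 0 := by
    refine Finset.sum_congr rfl fun i _ => ?_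
    rw [Finset.sum_ite_eq' (range (h + 1)) (i + j)]
    simp only [Finset.mem_range, Nat.lt_succ_iff]
    split_ifs <;> ring
  rw [h3, h4]
  linarith

end Pool.Agent.Helper83.WTC
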