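import Pool.Agent.Helper83.WTC.C2
import Pool.Agent.Helper83.WTC.C3

/-! # Part C: the approximate solution -/

set_option autoImplicit false

namespace Pool.Agent.Helper83.WTC

open Polynomial Finset Pool.Agent.Helper96.WT

/-- sum over the even free places -/
def SE (h : ℕ) (v : ℕ → ℕ) : ℕ := ∑ i ∈ Icc 2 h, if Even i then v i else 0

/-- sum over the odd free places -/
def SO (h : ℕ) (v : ℕ → ℕ) : ℕ := ∑ i ∈ Icc 2 h, if Even i then 0 else v i

/-- the leaf numbers: the free ones, and two determined by the linear equations -/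
def mm (h NE NO : ℕ) (v : ℕ → ℕ) (i : ℕ) : ℕ :=
  if i = 0 then NE - SE h v else if i = 1 then NO - SO h v else v i

theorem sum_split (h : ℕ) (hh : 2 ≤ h) (F : ℕ → ℤ) :
    ∑ i ∈ range (h + 1), F i = F 0 + F 1 + ∑ i ∈ Icc 2 h, F i := by
  have : range (h + 1) = insert 0 (insert 1 (Icc 2 h)) := by
    ext x
    simp only [Finset.mem_range, Finset.mem_insert, Finset.mem_Icc]
    omega
  rw [this, Finset.sum_insert (by simp), Finset.sum_insert (by simp)]
  ring

theorem SE_add_SO (h : ℕ) (v : ℕ → ℕ) : SE h v + SO h v = ∑ i ∈ Icc 2 h, v i := by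
  unfold SE SO
  rw [← Finset.sum_add_distrib]
  exact Finset.sum_congr rfl fun i _ => by split_ifs <;> simp

theorem mm_sum (h NE NO : ℕ) (hh : 2 ≤ h) (v : ℕ → ℕ) (hE : SE h v ≤ NE) (hO : SO h v ≤ NO) :
    ∑ i ∈ range (h + 1), (mm h NE NO v i : ℤ) = NE + NO := by
  rw [sum_split h hh]
  have h1 : ∑ i ∈ Icc 2 h, (mm h NE NO v i : ℤ) = SE h v + SO h v := by
    have : ((SE h v + SO h v : ℕ) : ℤ) = ∑ i ∈ Icc 2 h, (v i : ℤ) := by
      rw [SE_add_SO]; push_cast; rfl
    rw [← Nat.cast_add, this]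
    refine Finset.sum_congr rfl fun i hi => ?_
    rw [Finset.mem_Icc] at hi
    rw [mm, if_neg (by omega), if_neg (by omega)]
  rw [h1]
  have h2 : mm h NE NO v 0 = NE - SE h v := by simp [mm]
  have h3 : mm h NE NO v 1 = NO - SO h v := by simp [mm]
  rw [h2, h3]
  push_cast [Nat.cast_sub hE, Nat.cast_sub hO]
  ring

theorem mm_alt (h NE NO : ℕ) (hh : 2 ≤ h) (v : ℕ → ℕ) (hE : SE h v ≤ NE) (hO : SO h v ≤ NO) :
    ∑ i ∈ range (h + 1), (-1) ^ i * (mm h NE NO v i : ℤ) = NE - NO := by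
  rw [sum_split h hh]
  have h1 : ∑ i ∈ Icc 2 h, (-1) ^ i * (mm h NE NO v i : ℤ) = SE h v - SO h v := by
    unfold SE SO
    push_cast
    rw [← Finset.sum_sub_distrib]
    refine Finset.sum_congr rfl fun i hi => ?_
    rw [Finset.mem_Icc] at hi
    rw [mm, if_neg (by omega), if_neg (by omega)]
    split_ifs with h
    · rw [h.neg_one_pow]; ring
    · rw [(Nat.not_even_iff_odd.mp h).neg_one_pow]; ring
  rw [h1]
  have h2 : mm h NE NO v 0 = NE - SE h v := by simp [mm]
  have h3 : mm h NE NO v 1 = NO - SO h v := by simp [mm]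
  rw [h2, h3]
  push_cast [Nat.cast_sub hE, Nat.cast_sub hO]
  ring

theorem SE_single (h : ℕ) (v : ℕ → ℕ) (j : ℕ) (hj : j ∈ Icc 2 h) :
    SE h (fun i => v i + if i = j then 1 else 0) = SE h v + if Even j then 1 else 0 := by
  unfold SE
  have : ∀ i ∈ Icc 2 h, (if Even i then (v i + if i = j then 1 else 0) else 0) =
      (if Even i then v i else 0) + if i = j then (if Even j then 1 else 0) else 0 := by
    intro i _
    by_cases hij : i = j
    · subst hij; split_ifs <;> simp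
    · simp [hij]
  rw [Finset.sum_congr rfl this, Finset.sum_add_distrib, Finset.sum_ite_eq' (Icc 2 h) j, if_pos hj]

theorem SO_single (h : ℕ) (v : ℕ → ℕ) (j : ℕ) (hj : j ∈ Icc 2 h) :
    SO h (fun i => v i + if i = j then 1 else 0) = SO h v + if Even j then 0 else 1 := by
  unfold SO
  have : ∀ i ∈ Icc 2 h, (if Even i then 0 else (v i + if i = j then 1 else 0)) =
      (if Even i then 0 else v i) + if i = j then (if Even j then 0 else 1) else 0 := by
    intro i _
    by_cases hij : i = j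
    · subst hij; split_ifs <;> simp
    · simp [hij]
  rw [Finset.sum_congr rfl this, Finset.sum_add_distrib, Finset.sum_ite_eq' (Icc 2 h) j, if_pos hj]

theorem mm_move (h NE NO : ℕ) (v : ℕ → ℕ) (j : ℕ) (hj : j ∈ Icc 2 h)
    (hE : SE h v + 1 ≤ NE) (hO : SO h v + 1 ≤ NO) (i : ℕ) :
    (mm h NE NO (fun i => v i + if i = j then 1 else 0) i : ℤ) = mm h NE NO v i +
      ((if i = j then 1 else 0) - (if i = (if Even j then 0 else 1) then 1 else 0)) := by
  have hj2 := (Finset.mem_Icc.mp hj).1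
  unfold mm
  rw [SE_single h v j hj, SO_single h v j hj]
  by_cases h0 : i = 0
  · subst h0
    rw [if_pos rfl, if_pos rfl, if_neg (by omega : ¬ (0 = j))]
    by_cases he : Even j
    · rw [if_pos he, if_pos he, if_pos rfl]
      omega
    · rw [if_neg he, if_neg he, if_neg (by omega)]
      omega
  · by_cases h1 : i = 1
    · subst h1
      have e1 : ¬ (1 = j) := by omega
      by_cases he : Even j
      · simp [he, e1]
      · simp [he, e1]
        omega
    · rw [if_neg h0, if_neg h1, if_neg h0, if_neg h1]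
      by_cases he : Even j
      · rw [if_pos he, if_neg h0]
        push_cast; ring
      · rw [if_neg he, if_neg h1]
        push_cast; ring

theorem alt_one (c : ℕ) : ∑ i ∈ range (2 * c + 1), (-1 : ℤ) ^ i = 1 := by
  induction c with
  | zero => simp
  | succ c ih =>
    have h1 : (-1 : ℤ) ^ (2 * c + 1) = -1 := by rw [pow_succ, pow_mul]; norm_num
    rw [show 2 * (c + 1) + 1 = (2 * c + 1) + 1 + 1 by ring, Finset.sum_range_succ,
      Finset.sum_range_succ, ih, pow_succ _ (2 * c + 1), h1]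
    norm_num

theorem sum_geom_Icc (h : ℕ) : ∑ i ∈ Icc 2 h, ((1 : ℚ) / 8) ^ i ≤ 1 / 56 := by
  have h1 : Icc 2 h = Ico 2 (h + 1) := by
    ext x; simp only [Finset.mem_Icc, Finset.mem_Ico]; omega
  rw [h1]
  refine (geom_sum_Ico_le_of_lt_one (by norm_num) (by norm_num)).trans ?_
  norm_num

theorem sum_geom_64 (h : ℕ) : ∑ i ∈ range h, ((1 : ℚ) / 64) ^ i ≤ 64 / 63 := by
  rw [Finset.range_eq_Ico]
  refine (geom_sum_Ico_le_of_lt_one (by norm_num) (by norm_num)).trans ?_
  norm_num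

/-- The data of the construction: sizes and the box. -/
structure Dat (h n : ℕ) (ε : ℚ) (K C0 : ℚ) : Prop where
  hh : 2 ≤ h
  hn : 16 ≤ n
  ε0 : 0 < ε
  ε1 : ε ≤ 1
  hε : ∀ j ≤ h, ε ≤ (eP h (8 * h)).coeff j
  hK : K ≤ ε / 1000 * n
  hK0 : 0 ≤ K
  hhn : (h : ℚ) + 1 ≤ ε / 1000 * n
  hC : C0 ≤ ε / 1000 * n
  h1n : 1 ≤ ε / 1000 * n

theorem box_sum (h n : ℕ) (hh : 1 ≤ h) (v B : ℕ → ℕ) (hB : ∀ i ∈ Icc 2 h, (B i : ℚ) ≤ n * (eP h (8 * h)).coeff i + 1)
    (hv : ∀ i, v i ≤ B i) : ((SE h v + SO h v : ℕ) : ℚ) ≤ 1 / 56 * n + h := by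
  rw [SE_add_SO]
  push_cast
  have h1 : ∀ i ∈ Icc 2 h, (v i : ℚ) ≤ n * (1 / 8) ^ i + 1 := by
    intro i hi
    have h2 : (v i : ℚ) ≤ B i := by exact_mod_cast hv i
    have h3 := mul_le_mul_of_nonneg_left (eP_coeff_le h i hh) (Nat.cast_nonneg (α := ℚ) n)
    have h4 := hB i hi
    linarith
  refine (Finset.sum_le_sum h1).trans ?_
  rw [Finset.sum_add_distrib, ← Finset.mul_sum, Finset.sum_const, nsmul_eq_mul, mul_one]
  have h2 := mul_le_mul_of_nonneg_left (sum_geom_Icc h) (Nat.cast_nonneg (α := ℚ) n)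
  have h3 : (((Icc 2 h).card : ℕ) : ℚ) ≤ h := by
    exact_mod_cast (by rw [Nat.card_Icc]; omega : (Icc 2 h).card ≤ h)
  linarith

/-- the sum of the products of the leaf numbers at distance `j` along the spine -/
theorem prod_bound (h n : ℕ) (hh : 1 ≤ h) (w : ℕ → ℕ) (j : ℕ) (hw0 : w j = 0)
    (hw1 : ∀ i, 1 ≤ i → i ≤ h → (w i : ℚ) ≤ n * (1 / 8) ^ i + 1)
    (hw2 : ∀ i, 1 ≤ i → i + j ≤ h → (w (i + j) : ℚ) ≤ n * ((eP h (8 * h)).coeff j * (1 / 8) ^ i) + 1)
    (hn : 1 ≤ n) :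
    ((∑ i ∈ range (h + 1), (if i + j ≤ h then (w i : ℤ) * (w (i + j) : ℤ) else 0 : ℤ) : ℤ) : ℚ) ≤
      1 / 63 * (n : ℚ) ^ 2 * (eP h (8 * h)).coeff j + 3 * n * h := by
  have hn' : (1 : ℚ) ≤ n := by exact_mod_cast hn
  have he0 := eP_coeff_nonneg h (8 * h) j
  have he1 := eP_coeff_le_one h j hh
  set e := (eP h (8 * h)).coeff j with he
  push_cast
  rw [Finset.sum_range_succ']
  have h0 : ((if 0 + j ≤ h then (w 0 : ℤ) * (w (0 + j) : ℤ) else 0 : ℤ) : ℚ) = 0 := by
    rw [zero_add, hw0]; simp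
  have hterm : ∀ i ∈ range h, ((if i + 1 + j ≤ h then (w (i + 1) : ℤ) * (w (i + 1 + j) : ℤ) else 0 : ℤ) : ℚ)
      ≤ (n : ℚ) ^ 2 * e / 64 * (1 / 64) ^ i + 3 * n := by
    intro i hi
    rw [Finset.mem_range] at hi
    have hq0 : (0 : ℚ) < (1 / 8) ^ (i + 1) := by positivity
    have hq1 : ((1 : ℚ) / 8) ^ (i + 1) ≤ 1 := pow_le_one₀ (by norm_num) (by norm_num)
    have hqq : ((1 : ℚ) / 8) ^ (i + 1) * (1 / 8) ^ (i + 1) = 1 / 64 * (1 / 64) ^ i := by
      rw [← mul_pow, pow_succ]; norm_num [mul_comm]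
    split_ifs with hc
    · push_cast
      have a1 := hw1 (i + 1) (by omega) (by omega)
      have a2 := hw2 (i + 1) (by omega) hc
      set q := ((1 : ℚ) / 8) ^ (i + 1)
      calc (w (i + 1) : ℚ) * (w (i + 1 + j) : ℚ) ≤ (n * q + 1) * (n * (e * q) + 1) :=
            mul_le_mul a1 a2 (by positivity) (by positivity)
        _ = (n : ℚ) ^ 2 * e * (q * q) + (n * q + n * (e * q) + 1) := by ring
        _ ≤ (n : ℚ) ^ 2 * e * (q * q) + 3 * n := by
            have b1 : (n : ℚ) * q ≤ n := by nlinarith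
            have b2 : (n : ℚ) * (e * q) ≤ n := by
              have : e * q ≤ 1 := by nlinarith
              nlinarith
            linarith
        _ = _ := by rw [hqq]; ring
    · push_cast
      positivity
  have hsum := Finset.sum_le_sum hterm
  rw [Finset.sum_add_distrib, ← Finset.mul_sum, Finset.sum_const, nsmul_eq_mul, Finset.card_range]
    at hsum
  have h64 := mul_le_mul_of_nonneg_left (sum_geom_64 h) (show (0 : ℚ) ≤ (n : ℚ) ^ 2 * e / 64 by positivity)
  push_cast at h0 hsum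
  rw [h0]
  have : (n : ℚ) ^ 2 * e / 64 * (64 / 63) = 1 / 63 * (n : ℚ) ^ 2 * e := by ring
  linarith

/-- the core of Part C -/
theorem core (h c n NE NO : ℕ) (ε : ℚ) (C0 : ℕ) (Γ E0 : ℤ[X]) (hΓ : NN Γ) (hch : c ≤ h)
    (D : Dat h n ε ((h : ℚ) + 1 + (Γ.eval 1 : ℤ)) C0)
    (hE0 : ∀ k, |E0.coeff k| ≤ C0 * n)
    (htot : (h : ℤ) + 1 + NE + NO + Γ.eval 1 = n)
    (hNE : 93 / 100 * (n : ℚ) ≤ NE) (hNO : 43 / 1000 * (n : ℚ) ≤ NO)
    (hNO' : (NO : ℚ) ≤ 65 / 1000 * (n : ℚ)) :
    ∃ m : ℕ → ℕ, (∑ i ∈ range (h + 1), (m i : ℤ)) = NE + NO ∧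
      (∑ i ∈ range (h + 1), (-1) ^ i * (m i : ℤ)) = NE - NO ∧
      ∀ k, 4 ≤ k → k ≤ h + 2 →
        |2 * (tgt h (8 * h) n).coeff k + 2 * (n : ℚ) - ((twoW h c Γ E0 m).coeff k : ℚ)| ≤
          2 * (n : ℚ) := by
  have hh2 := D.hh
  have hn16 := D.hn
  have hh1 : 1 ≤ h := by omega
  have hn' : (16 : ℚ) ≤ n := by exact_mod_cast D.hn
  have hεn : ε / 1000 * n ≤ 1 / 1000 * n := by
    have := D.ε1
    nlinarith
  have hK := D.hK
  have hhn := D.hhn
  have hC := D.hC
  have h1n := D.h1n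
  have hG0 : (0 : ℤ) ≤ Γ.eval 1 := hΓ.eval_nonneg
  -- the box
  set B : ℕ →₀ ℕ := Finsupp.onFinset (Icc 2 h)
    (fun j => if j ∈ Icc 2 h then ⌈(n : ℚ) * (eP h (8 * h)).coeff j⌉₊ else 0)
    (fun j hj => by by_contra hcon; exact hj (by rw [if_neg hcon])) with hBdef
  have hBval : ∀ j ∈ Icc 2 h, B j = ⌈(n : ℚ) * (eP h (8 * h)).coeff j⌉₊ := by
    intro j hj
    rw [hBdef, Finsupp.onFinset_apply, if_pos hj]
  have hBle : ∀ i ∈ Icc 2 h, (B i : ℚ) ≤ n * (eP h (8 * h)).coeff i + 1 := by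
    intro i hi
    rw [hBval i hi]
    have h0 : (0 : ℚ) ≤ (n : ℚ) * (eP h (8 * h)).coeff i :=
      mul_nonneg (by positivity) (eP_coeff_nonneg _ _ _)
    exact (Nat.ceil_lt_add_one h0).le
  have hBge : ∀ i ∈ Icc 2 h, (n : ℚ) * (eP h (8 * h)).coeff i ≤ (B i : ℚ) := by
    intro i hi
    rw [hBval i hi]
    exact Nat.le_ceil _
  -- facts valid in the box
  have hS : ∀ v : ℕ →₀ ℕ, v ≤ B → (SE h v : ℚ) + (SO h v : ℚ) ≤ 19 / 1000 * n := by
    intro v hv
    have := box_sum h n hh1 v B hBle hv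
    push_cast at this
    linarith
  have hSE : ∀ v : ℕ →₀ ℕ, v ≤ B → SE h v + 1 ≤ NE ∧ 3 / 4 * (n : ℚ) + 1 ≤ (mm h NE NO v 0 : ℕ) := by
    intro v hv
    have h1 := hS v hv
    have h2 : (0 : ℚ) ≤ (SO h v : ℚ) := Nat.cast_nonneg _
    have h3 : ((SE h v + 1 : ℕ) : ℚ) ≤ NE := by push_cast; linarith
    have h3' : SE h v + 1 ≤ NE := by exact_mod_cast h3
    refine ⟨h3', ?_⟩
    have h4 : mm h NE NO v 0 = NE - SE h v := by simp [mm]
    rw [h4, Nat.cast_sub (by omega)]
    linarith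
  have hSO : ∀ v : ℕ →₀ ℕ, v ≤ B → SO h v + 1 ≤ NO := by
    intro v hv
    have h1 := hS v hv
    have h2 : (0 : ℚ) ≤ (SE h v : ℚ) := Nat.cast_nonneg _
    have h3 : ((SO h v + 1 : ℕ) : ℚ) ≤ NO := by push_cast; linarith
    exact_mod_cast h3
  have hsum : ∀ v : ℕ →₀ ℕ, v ≤ B →
      (∑ i ∈ range (h + 1), (1 + (mm h NE NO v i : ℤ))) + Γ.eval 1 = n := by
    intro v hv
    rw [Finset.sum_add_distrib, mm_sum h NE NO D.hh v (by have := (hSE v hv).1; omega)
      (by have := hSO v hv; omega)]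
    simp
    linarith
  have hm0n : ∀ v : ℕ →₀ ℕ, v ≤ B → (mm h NE NO v 0 : ℤ) ≤ n := by
    intro v hv
    have h4 : mm h NE NO v 0 ≤ NE := by simp [mm]
    have h5 : (mm h NE NO v 0 : ℤ) ≤ NE := by exact_mod_cast h4
    have h6 : (0 : ℤ) ≤ NO := Int.natCast_nonneg _
    linarith
  have key : ∃ v ≤ B, ∀ j ∈ Icc 2 h, |((tgt h (8 * h) n).coeff (j + 2) + n) -
      ((twoW h c Γ E0 (mm h NE NO v)).coeff (j + 2) : ℚ) / 2| ≤ n := by
    refine cc_approx (Icc 2 h) B
      (fun v k => ((twoW h c Γ E0 (mm h NE NO v)).coeff (k + 2) : ℚ) / 2)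
      (fun k => (tgt h (8 * h) n).coeff (k + 2) + n) n ?_ ?_ ?_
    · -- the moves
      intro v hv j hj hlt
      have hv' : v + Finsupp.single j 1 ≤ B := by
        intro i
        rcases eq_or_ne i j with rfl | hij
        · simpa using hlt
        · simpa [Finsupp.single_apply, hij.symm] using hv i
      have hcoe : ((v + Finsupp.single j 1 : ℕ →₀ ℕ) : ℕ → ℕ) = fun i => v i + if i = j then 1 else 0 := by
        funext i
        simp [Finsupp.single_apply, eq_comm]
      generalize hv'def : (v + Finsupp.single j 1 : ℕ →₀ ℕ) = v' at hv' hcoe ⊢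
      have hj' := Finset.mem_Icc.mp hj
      have hmove := mm_move h NE NO v j hj (hSE v hv).1 (hSO v hv)
      rw [← hcoe] at hmove
      obtain ⟨i0, hi0, hi01⟩ : ∃ i0 : ℕ, i0 = (if Even j then 0 else 1) ∧ i0 ≤ 1 :=
        ⟨_, rfl, by split_ifs <;> omega⟩
      rw [← hi0] at hmove
      have hb := move_bound h c hch Γ hΓ (mm h NE NO v) n (hsum v hv) (hm0n v hv) j i0 hi01 (Icc 2 h)
        (fun k hk => (Finset.mem_Icc.mp hk).1)
      have heq : ∀ k ∈ Icc 2 h, |((twoW h c Γ E0 (mm h NE NO v')).coeff (k + 2) : ℚ) / 2 -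
          ((twoW h c Γ E0 (mm h NE NO v)).coeff (k + 2) : ℚ) / 2 - (if k = j then (n : ℚ) else 0)| =
          ((|(Yp h c Γ (mm h NE NO v) j).coeff (k + 1) - (Yp h c Γ (mm h NE NO v) i0).coeff (k + 1) -
        (if k = Nat.dist j i0 then 1 else 0) - (if k = j then (n : ℤ) else 0)| : ℤ) : ℚ) := by
        intro k hk
        have hk2 := (Finset.mem_Icc.mp hk).1
        have h1 := twoW_move h c Γ E0 (mm h NE NO v) (mm h NE NO v') j i0
          hj'.2 (by omega) hmove k hk2
        have h2 : ((twoW h c Γ E0 (mm h NE NO v')).coeff (k + 2) : ℚ) -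
          ((twoW h c Γ E0 (mm h NE NO v)).coeff (k + 2) : ℚ) =
            ((2 * ((Yp h c Γ (mm h NE NO v) j).coeff (k + 1) - (Yp h c Γ (mm h NE NO v) i0).coeff (k + 1) -
          if k = Nat.dist j i0 then 1 else 0) : ℤ) : ℚ) := by
          rw [← h1]; push_cast; ring
        rw [Int.cast_abs]
        congr 1
        push_cast at h2 ⊢
        linarith
      rw [Finset.sum_congr rfl heq, ← Int.cast_sum]
      have hb' := (Int.cast_le (R := ℚ)).mpr hb
      refine lt_of_le_of_lt hb' ?_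
      have h3 := (hSE v hv).2
      push_cast
      linarith
    · -- the lower end of the box
      intro v hv j hj hvj
      have hj' := Finset.mem_Icc.mp hj
      show ((twoW h c Γ E0 (mm h NE NO v)).coeff (j + 2) : ℚ) / 2 ≤
        (tgt h (8 * h) n).coeff (j + 2) + n + n
      rw [twoW_eq _ _ _ _ _ _ (by omega)]
      have h1 := Q_coeff_le h c hch Γ hΓ (mm h NE NO v) n (hsum v hv) (j + 2)
      have h2 := Q0_coeff_le h (mm h NE NO v) j
      have hmj : ∀ i, 2 ≤ i → mm h NE NO v i = v i := by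
        intro i hi
        rw [mm, if_neg (by omega), if_neg (by omega)]
      have hmv : ∀ i, 2 ≤ i → i ≤ h → (mm h NE NO v i : ℚ) ≤ n * (eP h (8 * h)).coeff i + 1 := by
        intro i hi hi'
        rw [hmj i hi]
        have h3 : (v i : ℚ) ≤ B i := by exact_mod_cast hv i
        exact h3.trans (hBle i (Finset.mem_Icc.mpr ⟨hi, hi'⟩))
      have h3 := prod_bound h n hh1 (mm h NE NO v) j (by rw [hmj j hj'.1, hvj]) ?_ ?_ (by omega)
      · have h4 := (hE0 (j + 2))
        have h5 : (E0.coeff (j + 2) : ℚ) ≤ C0 * n := by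
          have := (le_abs_self _).trans h4
          exact_mod_cast this
        have h6 : ((Qp h c Γ (mm h NE NO v)).coeff (j + 2) : ℚ) ≤
            2 * ((∑ i ∈ range (h + 1), (if i + j ≤ h then (mm h NE NO v i : ℤ) *
              (mm h NE NO v (i + j) : ℤ) else 0 : ℤ) : ℤ) : ℚ) +
              2 * n * ((h : ℚ) + 1 + (Γ.eval 1 : ℤ)) := by
          have := h1.trans (add_le_add_left h2 _)
          exact_mod_cast this
        have h7 := (tgt_bounds h n j hh1 D.hn).1
        have h8 := D.hε j hj'.2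
        set e := (eP h (8 * h)).coeff j
        set K := (h : ℚ) + 1 + (Γ.eval 1 : ℤ)
        have h9 : 6 * (h : ℚ) + 2 * K + C0 ≤ 9 / 1000 * e * n := by
          have : ε / 1000 * n ≤ e / 1000 * n := by
            have := mul_le_mul_of_nonneg_right h8 (show (0 : ℚ) ≤ n / 1000 by positivity)
            linarith
          linarith
        have h10 : (6 * (h : ℚ) + 2 * K + C0) * n ≤ 9 / 1000 * e * n ^ 2 := by
          calc (6 * (h : ℚ) + 2 * K + C0) * n ≤ (9 / 1000 * e * n) * n :=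
                mul_le_mul_of_nonneg_right h9 (by positivity)
            _ = _ := by ring
        have h11 : (0 : ℚ) ≤ n ^ 2 * e := mul_nonneg (by positivity) (eP_coeff_nonneg _ _ _)
        push_cast
        linarith
      · intro i hi hi'
        rcases Nat.lt_or_ge i 2 with hlt | hge
        · obtain rfl : i = 1 := by omega
          have h4 : mm h NE NO v 1 ≤ NO := by simp [mm]
          have h5 : (mm h NE NO v 1 : ℚ) ≤ NO := by exact_mod_cast h4
          linarith
        · have h4 := hmv i hge hi'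
          have h5 := mul_le_mul_of_nonneg_left (eP_coeff_le h i hh1) (Nat.cast_nonneg (α := ℚ) n)
          linarith
      · intro i hi hi'
        have h4 := hmv (i + j) (by omega) hi'
        have h5 := mul_le_mul_of_nonneg_left (eP_coeff_add h j i hh1) (Nat.cast_nonneg (α := ℚ) n)
        rw [add_comm j i] at h5
        linarith
    · -- the upper end of the box
      intro v hv j hj hvj
      have hj' := Finset.mem_Icc.mp hj
      show (tgt h (8 * h) n).coeff (j + 2) + n - n ≤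
        ((twoW h c Γ E0 (mm h NE NO v)).coeff (j + 2) : ℚ) / 2
      rw [twoW_eq _ _ _ _ _ _ (by omega)]
      have h1 := Q_coeff_ge h c Γ hΓ (mm h NE NO v) j (by omega) hj'.2
      have hmj : mm h NE NO v j = v j := by
        rw [mm, if_neg (by omega), if_neg (by omega)]
      have h4 := hE0 (j + 2)
      have h5 : -((C0 : ℚ) * n) ≤ (E0.coeff (j + 2) : ℚ) := by
        have := neg_le_of_abs_le h4
        exact_mod_cast this
      have h6 : 2 * (mm h NE NO v 0 : ℚ) * (mm h NE NO v j : ℚ) ≤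
          ((Qp h c Γ (mm h NE NO v)).coeff (j + 2) : ℚ) := by exact_mod_cast h1
      have h7 := (tgt_bounds h n j hh1 D.hn).2
      have h8 := D.hε j hj'.2
      have h9 : (n : ℚ) * (eP h (8 * h)).coeff j ≤ (mm h NE NO v j : ℚ) := by
        rw [hmj, hvj]
        exact hBge j hj
      have h10 := (hSE v hv).2
      have he0 := eP_coeff_nonneg h (8 * h) j
      set e := (eP h (8 * h)).coeff j
      have h11 : (3 / 4 * (n : ℚ)) * (n * e) ≤ (mm h NE NO v 0 : ℚ) * (mm h NE NO v j : ℚ) :=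
        mul_le_mul (by linarith) h9 (by positivity) (by positivity)
      have h12 : (C0 : ℚ) ≤ e / 1000 * n := by
        have := mul_le_mul_of_nonneg_right h8 (show (0 : ℚ) ≤ n / 1000 by positivity)
        linarith
      have h13 : (C0 : ℚ) * n ≤ e / 1000 * n ^ 2 := by
        calc (C0 : ℚ) * n ≤ (e / 1000 * n) * n := mul_le_mul_of_nonneg_right h12 (by positivity)
          _ = _ := by ring
      have h14 : (0 : ℚ) ≤ n ^ 2 * e := by positivity
      push_cast
      linarith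
  obtain ⟨v, hv, hres⟩ := key
  refine ⟨mm h NE NO v, mm_sum h NE NO D.hh v (by have := (hSE v hv).1; omega)
    (by have := hSO v hv; omega), mm_alt h NE NO D.hh v (by have := (hSE v hv).1; omega)
    (by have := hSO v hv; omega), fun k hk hk2 => ?_⟩
  obtain ⟨j, rfl⟩ : ∃ j, k = j + 2 := ⟨k - 2, by omega⟩
  have := hres j (Finset.mem_Icc.mpr ⟨by omega, by omega⟩)
  rw [abs_le] at this ⊢
  constructor <;> linarith [this.1, this.2]

end Pool.Agent.Helper83.WTC
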